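import Pool.Agent.H936.SL.Out2

/-!
# De Rham-Betti classes on all fibres near an abelian variety with extra endomorphisms

Let `A_x` be a polarised family of abelian varieties of dimension `g ≥ 2` over `ℚ`, over an open part of the line, with
Zariski dense monodromy in the symplectic group, and let `A_0` be a member with `End (A_0) ≠ ℤ`; nothing else is assumed
about `A_0`, in particular it can have up to `2 g ^ 2 - 3 g + 5` algebraically independent periods, and no
transcendence result or conjecture on the algebraic independence of these periods is known or assumed. Let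
`P(x) = C Z(x)` be the period matrix of `h^1(A_x)` near `0`: `Z` is a matrix of G-functions over `ℚ`, and `C` is the
matrix of the periods of `A_0`. Let `M_0` be another motive (or any de Rham-Betti object) over `ℚ` with period matrix
`C₀`, and

  `c = C₀ ⊕ P(1 / t_1) ⊕ … ⊕ P(1 / t_N)`,

the period matrix of `M = M_0 ⊕ ⨁ h^1(A_{t_j})`. The torsor `Ω^dRB_M` of the problem is a subtorsor over `K` with `c` as
a point, whose group (on the Betti side) is defined over `ℚ`.

**Theorem.** Let `D`, `N`, `C₀` be given. There are `G` (which depends only on the family) and `E` such that for **all**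
`t_1, …, t_N` which are distinct, congruent modulo `G`, with `(t_i - t_j + 2) ^ E ≤ t_j` (for `N = 1` these are all
`t ≥ 2 ^ E`), **all** number fields `K` with `[K : ℚ] ≤ D` and **all** `K`-subtorsors `S` with `c ∈ S` whose group is
defined over `ℚ`:

1. `S` is stable under `1 × Sp × … × Sp`.
2. In the absolute case `C₀ = 2 π i` (`M_0 = ℚ(-1) ^ r`; this object is in the category generated by `h^1(A_t)`) `S` is
   equal to the torsor `T_pol` of all isomorphisms which respect the polarisations as soon as it is contained in it. As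
   `Ω^dRB_M ⊆ Ω^And_M ⊆ T_pol`, these three torsors are equal: the second equality of the conjecture (`Ω^dRB = Ω^And`)
   is true for all `M` in the tensor category generated by `ℚ(1)` and the `h^1(A_{t_j})`, all de Rham-Betti classes are
   Hodge classes and products of classes of divisors, and `End_K (A_{t_j}) = ℤ`, `Hom_K (A_{t_i}, A_{t_j}) = 0`.

Part 1 needs a condition (`Linked`) on `M_0`: either `C₀` and `C` together generate, up to algebraic numbers and one
common factor, a field of transcendence degree less than `g (2 g + 1) = dim Sp`; or `C₀` is algebraic over the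
field generated by `2 π i`, the periods of `A_0` and `s ≤ 2 g - 3` other numbers. So all `M_0` in the category generated by
`h^1(A_0)` are possible: the periods of the fibres are independent of those of `A_0`.

The known theorems on **all** fibres with large parameter (`AllLargeParameters`, `AllFibresFewCentralPeriods`) have the
condition that there are at most `2 g - 2` central periods. Here there is no such condition, and the reason why there
are no exceptional fibres is a different one.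

**Proof** (`Pool/Agent/H936/SL`). By the theorem on the linear independence of values of G-functions at many points
(`Y118/HX/WinM`) and the ultraproduct `ℂ^*` there is for each `X` in `𝔰𝔭` and each `j` a derivation `δ` of `ℂ^*` over `ℚ^*`
with `δ(Z_j) Z_j⁻¹ = C⁻¹ X C`, `δ(Z_i) = 0` for `i ≠ j`; the limit `L` of the Lie algebras of the groups of `S` is
normalised by `(δ(C₀) C₀⁻¹, F + X e_j)`, `F = δ(C) C⁻¹` (`Helper880_R3`). We have no control over `F`, but by the theorem
of Schneider and Lang in the form of Bost (`Y102`) the endomorphism of `A_0` gives an operator `α`, symmetric and not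
scalar or skew with scalar square, which commutes with `F`. So with `𝔩` the `j`-th projection of `L` and `𝔫` its
normaliser, `𝔰𝔭 = 𝔫 + 𝔷(α)`: the symplectic algebra is the sum of a normaliser and of a centraliser. Again by the theorem of
Schneider and Lang, now for the fibre, and by the positivity of the polarisation, `𝔩` is not zero and the trace form of
`𝔩` is nondegenerate: here we use that the group is defined over `ℚ`. The main new result is the following theorem on
factorisations (`QF`, `Nil`, `SF`, `End`, `Tr`, `Kk`): let `𝔩 ⊆ 𝔰𝔭(V)` be a subalgebra with nondegenerate trace form,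
`dim V ≥ 3`, and `α` as above. If `𝔰𝔭(V) = 𝔫(𝔩) + 𝔷(α)`, then `𝔩 = 0` or `𝔩 = 𝔰𝔭(V)`. The proof is uniform: for
isotropic pairs `u, v` the operator `[u v, P(·)]`, `P` the projection to `𝔩`, is nilpotent because the invariants of
`𝔫` are determined on the orbits of the centraliser, so the curvature-like form `Q(u u; v v) - Q(u v; u v)` of the
projection is a multiple of `ω(u, v) ^ 2`, and an analysis of the quartic form `Q(v v; v v)` shows that `P` is a
multiple of the identity. Finally, as the periods of `A_0` commute with `α`, there are less than `dim 𝔰𝔭` of them, so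
some `X ≠ 0` occurs with `F = 0`, and as `L` is closed under commutators it contains `𝔰𝔭 e_j`.

Nothing is assumed about periods: `AbVar` is the description of an abelian variety over `ℚ̄` by theta functions
(`Pool/Agent/Y102/AVDefs.lean` explains why every abelian variety has it).
-/

set_option autoImplicit false

open PowerSeries Filter
open scoped Matrix

namespace Pool.Agent.Results.MP_f11a48_ag.NearExtraEndomorphisms

open Pool.Agent.Y102 (AbVar riemannForm)

/-! ### G-functions -/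

/-- an integer polynomial as a power series with rational coefficients -/
noncomputable def toQ (P : Polynomial ℤ) : PowerSeries ℚ := ((P.map (Int.castRingHom ℚ) : Polynomial ℚ) : PowerSeries ℚ)

/-- the power series `P(u^e)` -/
noncomputable def atPow (e : ℕ) (P : Polynomial ℤ) : PowerSeries ℂ :=
  ((Polynomial.expand ℂ e (P.map (Int.castRingHom ℂ)) : Polynomial ℂ) : PowerSeries ℂ)

/-- the matrices `G_s` over `ℤ[x]` with `T^s y^(s) = G_s y` for all solutions `y` of `T y' = A y` -/
noncomputable def iter {r : ℕ} (T : Polynomial ℤ) (A : Fin r → Fin r → Polynomial ℤ) : ℕ → Fin r → Fin r → Polynomial ℤ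
  | 0 => fun i j => if i = j then 1 else 0
  | s + 1 => fun i j => T * Polynomial.derivative (iter T A s i j) + ∑ l, iter T A s i l * A l j -
      (s : Polynomial ℤ) * (Polynomial.derivative T * iter T A s i j)

/-- The system `T y' = A y` has a fundamental matrix of solutions of the form `u^(-M) ∑_n Φ_n(u) (log u)^n` with
`u^e = x` and convergent power series `Φ_n`: the point `0` is regular or a regular singularity with rational
exponents. -/
def QuasiUnipotent {r : ℕ} (T : Polynomial ℤ) (A : Fin r → Fin r → Polynomial ℤ) : Prop :=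
  ∃ (e M : ℕ) (K : ℝ) (Φ : Matrix (Fin r) (Fin r) (Polynomial (PowerSeries ℂ))), 1 ≤ e ∧ Φ.det ≠ 0 ∧
    (∀ i j n m, ‖coeff m ((Φ i j).coeff n)‖ ≤ K ^ (m + 1)) ∧
    ∀ i j n, atPow e T * (X * PowerSeries.derivative ℂ ((Φ i j).coeff n) +
        ((n : PowerSeries ℂ) + 1) * (Φ i j).coeff (n + 1) - (M : PowerSeries ℂ) * (Φ i j).coeff n) =
      (e : PowerSeries ℂ) * X ^ e * ∑ l, atPow e (A i l) * (Φ l j).coeff n

/-- `h_1, ..., h_r` are G-functions with rational coefficients which solve the differential system `T y' = A y`, with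
the conditions of Siegel and Galochkin, and `0` is a regular point or a regular singularity with rational exponents of
the system. -/
structure GFamily {r : ℕ} (T : Polynomial ℤ) (A : Fin r → Fin r → Polynomial ℤ) (h : Fin r → PowerSeries ℚ) : Prop where
  /-- the denominator is not zero -/
  T_ne : T ≠ 0
  /-- the differential equations -/
  ode : ∀ i, toQ T * PowerSeries.derivative ℚ (h i) = ∑ j, toQ (A i j) * h j
  /-- the coefficients have geometric growth -/
  size : ∃ C : ℝ, ∀ i m, |((coeff m (h i) : ℚ) : ℝ)| ≤ C ^ (m + 1)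
  /-- the common denominators of the coefficients have geometric growth -/
  den : ∃ C : ℝ, ∀ m : ℕ, ∃ d : ℕ, 0 < d ∧ (d : ℝ) ≤ C ^ (m + 1) ∧ ∀ i, ∀ j ≤ m, ∃ a : ℤ, (d : ℚ) * coeff j (h i) = a
  /-- Galochkin's condition: the common denominators of the matrices `G_s / s!` have geometric growth -/
  galochkin : ∃ C : ℝ, ∀ m : ℕ, ∃ d : ℕ, 0 < d ∧ (d : ℝ) ≤ C ^ (m + 1) ∧ ∀ s ≤ m, ∀ i j,
    ∃ H : Polynomial ℤ, (d : Polynomial ℤ) * iter T A s i j = (s.factorial : Polynomial ℤ) * H
  /-- the local exponents at `0` are rational and the singularity is regular -/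
  regular : QuasiUnipotent T A

section family
variable {n : ℕ}

/-- the entries of a matrix -/
def entries (Z : Matrix (Fin n) (Fin n) (PowerSeries ℚ)) : Fin (n * n) → PowerSeries ℚ := fun a =>
  Z (finProdFinEquiv.symm a).1 (finProdFinEquiv.symm a).2

/-- rational matrices as complex matrices -/
def toC (M : Matrix (Fin n) (Fin n) ℚ) : Matrix (Fin n) (Fin n) ℂ := M.map fun x : ℚ => (x : ℂ)

/-- the matrix `Z(1 / t)` -/
noncomputable def value (Z : Matrix (Fin n) (Fin n) (PowerSeries ℚ)) (t : ℕ) : Matrix (Fin n) (Fin n) ℂ :=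
  Matrix.of fun i j => ((∑' k : ℕ, ((coeff k (Z i j) : ℚ) : ℝ) * (1 / (t : ℝ)) ^ k : ℝ) : ℂ)

/-- the matrix of power series with complex coefficients -/
noncomputable def overC (Z : Matrix (Fin n) (Fin n) (PowerSeries ℚ)) : Matrix (Fin n) (Fin n) (PowerSeries ℂ) :=
  Z.map (PowerSeries.map (algebraMap ℚ ℂ))

/-- `X` is an infinitesimal symmetry of `Z`: for all polynomial relations `R(x, Z(x)) = 0` over `ℂ[x]` the derivative of
`R(x, (1 + ε X) Z(x))` at `ε = 0` is zero. -/
def Symmetry (Z : Matrix (Fin n) (Fin n) (PowerSeries ℚ)) (X : Matrix (Fin n) (Fin n) ℂ) : Prop :=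
  ∀ R : MvPolynomial (Fin n × Fin n) (Polynomial ℂ), MvPolynomial.aeval (fun b => overC Z b.1 b.2) R = 0 →
    ∑ b, MvPolynomial.aeval (fun b => overC Z b.1 b.2) (MvPolynomial.pderiv b R) *
      (X.map (PowerSeries.C (R := ℂ)) * overC Z) b.1 b.2 = 0

/-- **Big monodromy**: the Lie algebra of the symplectic group of `H` (on the Betti side) consists of infinitesimal
symmetries of the matrix `P(x) = C Z(x)` of the periods. It is sufficient that the monodromy group of the family is
Zariski dense in the symplectic group of `H`. -/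
def BigMonodromy (Z : Matrix (Fin n) (Fin n) (PowerSeries ℚ)) (C : Matrix (Fin n) (Fin n) ℂ)
    (H : Matrix (Fin n) (Fin n) ℚ) : Prop :=
  ∀ X : Matrix (Fin n) (Fin n) ℂ, X * toC H + toC H * Xᵀ = 0 → Symmetry Z (C⁻¹ * X * C)

/-- Either `C₀` and `C` are up to one common factor algebraic over a field generated by less than
`n (n + 1) / 2 = dim Sp` numbers, or `C₀` is algebraic over a field which is generated by `2 π i`, the entries of `C` and
at most `n - 3` other numbers. -/
def Linked {r : ℕ} (C₀ : Matrix (Fin r) (Fin r) ℂ) (C : Matrix (Fin n) (Fin n) ℂ) : Prop :=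
  (∃ (s : ℕ) (b : Fin s → ℂ) (κ : ℂ), s < (n + 1).choose 2 ∧ κ ≠ 0 ∧
    (∀ i j, IsAlgebraic (IntermediateField.adjoin ℚ (Set.range b)) (κ * C₀ i j)) ∧
    ∀ i j, IsAlgebraic (IntermediateField.adjoin ℚ (Set.range b)) (κ * C i j)) ∨
  ∃ (s : ℕ) (b : Fin s → ℂ), s + 3 ≤ n ∧ ∀ i j, IsAlgebraic (IntermediateField.adjoin ℚ
    (insert (2 * Real.pi * Complex.I : ℂ) (Set.range b ∪ Set.range fun p : Fin n × Fin n => C p.1 p.2))) (C₀ i j)

end family

/-- the numbers `t_j` are distinct and congruent modulo `G`, and `(t_i - t_j + 2)^E ≤ t_j` -/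
def InWindow (G E : ℕ) {N : ℕ} (t : Fin N → ℕ) : Prop :=
  Function.Injective t ∧ (∀ i j, t i ≡ t j [MOD G]) ∧ ∀ i j, (t i - t j + 2) ^ E ≤ t j

/-! ### Abelian varieties -/

section abelian
variable {g : ℕ} (A : AbVar g)

/-- The matrix of the periods of `A`: the integrals over the basis of the lattice of the invariant differentials `d z k`
and of the differentials of the second kind `d (∂ k (log θ 0))`, a basis of `H^1_dR (A / ℚ̄)`. -/
noncomputable def periods : Matrix (Fin (2 * g)) (Fin g ⊕ Fin g) ℂ := Matrix.of fun a i => A.dR i (Pi.single a 1)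

/-- `P` is the matrix of the comparison isomorphism `H^1_dR → H^1_B` of `A` for some basis `R` of the rational homology, in
which the Riemann form has the matrix `H` up to a rational factor, and some basis of the de Rham cohomology over `ℚ̄`
(given by `T`). -/
def Presents (H : Matrix (Fin (2 * g)) (Fin (2 * g)) ℚ) (P : Matrix (Fin (2 * g)) (Fin (2 * g)) ℂ) : Prop :=
  ∃ (R : Matrix (Fin (2 * g)) (Fin (2 * g)) ℚ) (T : Matrix (Fin g ⊕ Fin g) (Fin (2 * g)) ℂ) (q : ℚ),
    IsUnit R ∧ IsUnit P ∧ (∀ i j, IsAlgebraic ℚ (T i j)) ∧ q ≠ 0 ∧ P = toC R * periods A * T ∧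
    ∀ a b, ∑ c, ∑ d, (R a c : ℂ) * riemannForm A.lam A.η (A.lam c) (A.lam d) * (R b d : ℂ) = (q : ℂ) * (H a b : ℂ)

/-- `X` is an endomorphism of `A` (up to isogeny), in terms of its action on `H_1(A, ℚ)`: it respects the de Rham
structure over `ℚ̄`. (By the theorem of Bost, which is proved in `Pool.Agent.Y102.AbVar.hodge_end`, these are the
elements of `End (A) ⊗ ℚ`.) -/
def IsEndo (X : Module.End ℚ A.H1) : Prop :=
  ∃ a : Fin g ⊕ Fin g → Fin g ⊕ Fin g → ℂ, (∀ i j, IsAlgebraic ℚ (a i j)) ∧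
    ∀ i w, A.dR i (X w) = ∑ j, a i j * A.dR j w

/-- `End (A) ≠ ℤ` -/
def HasExtraEndo : Prop := ∃ X : Module.End ℚ A.H1, IsEndo A X ∧ ∀ c : ℚ, X ≠ c • (1 : Module.End ℚ A.H1)

end abelian

/-! ### Torsors -/

/-- `S` is (the set of complex points of) a `K`-subtorsor of `GL_B = Iso (M_dR, M_B)`: it is closed under `x y⁻¹ z`, and
it is defined in `GL_B` by polynomials with coefficients in `K`. -/
def IsSubtorsor (K : Subfield ℂ) {B : Type} [Fintype B] [DecidableEq B] (S : Set (Matrix B B ℂ)) : Prop :=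
  (∀ x ∈ S, ∀ y ∈ S, ∀ z ∈ S, x * y⁻¹ * z ∈ S) ∧ ∃ I : Set (MvPolynomial (B × B) K), ∀ x : Matrix B B ℂ, x ∈ S ↔
    IsUnit x ∧ ∀ p ∈ I, MvPolynomial.eval (fun b => x b.1 b.2) (MvPolynomial.map (algebraMap K ℂ) p) = 0

/-- The group of the torsor `S` on the Betti side, the set of the `x y⁻¹` with `x`, `y` in `S`, is defined over `ℚ`: it is
stable under all automorphisms of the field of complex numbers. -/
def RationalGroup {B : Type} [Fintype B] [DecidableEq B] (S : Set (Matrix B B ℂ)) : Prop :=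
  ∀ σ : ℂ ≃+* ℂ, ∀ x ∈ S, ∀ y ∈ S, ∃ x' ∈ S, ∃ y' ∈ S, (x * y⁻¹).map σ = x' * y'⁻¹

section
variable {n N r : ℕ}

/-- the block matrix `x ⊕ X_1 ⊕ … ⊕ X_N` -/
def total (x : Matrix (Fin r) (Fin r) ℂ) (X : Fin N → Matrix (Fin n) (Fin n) ℂ) :
    Matrix (Fin r ⊕ (Fin n × Fin N)) (Fin r ⊕ (Fin n × Fin N)) ℂ :=
  Matrix.fromBlocks x 0 0 (Matrix.blockDiagonal X)

/-- The torsor `T_pol` of the isomorphisms `z ⊕ … ⊕ z ⊕ X_1 ⊕ … ⊕ X_N` of an `r`-fold sum of the object `ℚ(-1)` and of the
`M_j` which respect the polarisations `Q_j` (de Rham) and `H` (Betti), with values in `ℚ(-w_j)`. -/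
def torsorOf (r : ℕ) (H : Matrix (Fin n) (Fin n) ℚ) (Q : Fin N → Matrix (Fin n) (Fin n) ℂ) (w : Fin N → ℤ) :
    Set (Matrix (Fin r ⊕ (Fin n × Fin N)) (Fin r ⊕ (Fin n × Fin N)) ℂ) :=
  {y | ∃ z : ℂ, z ≠ 0 ∧ ∃ X : Fin N → Matrix (Fin n) (Fin n) ℂ, y = total (z • 1) X ∧
    ∀ j, X j * Q j * (X j)ᵀ = z ^ (w j) • toC H}

/-- The conclusion for one tuple of parameters; `P j` is the period matrix of the fibre. -/
def Good (D : ℕ) (C₀ : Matrix (Fin r) (Fin r) ℂ) (H : Matrix (Fin n) (Fin n) ℚ)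
    (P : Fin N → Matrix (Fin n) (Fin n) ℂ) : Prop :=
  ∀ K : Subfield ℂ, FiniteDimensional ℚ K → Module.finrank ℚ K ≤ D →
  ∀ S : Set (Matrix (Fin r ⊕ (Fin n × Fin N)) (Fin r ⊕ (Fin n × Fin N)) ℂ), IsSubtorsor K S → RationalGroup S →
  total C₀ P ∈ S →
  -- 1: stability under the symplectic groups
  (∀ γ : Fin N → Matrix (Fin n) (Fin n) ℂ, (∀ j, γ j * toC H * (γ j)ᵀ = toC H) → ∀ x ∈ S, total 1 γ * x ∈ S) ∧
  -- 2: the absolute case
  (0 < r → C₀ = (2 * Real.pi * Complex.I : ℂ) • 1 →
    ∀ (Q : Fin N → Matrix (Fin n) (Fin n) ℂ) (w : Fin N → ℤ), S ⊆ torsorOf r H Q w → S = torsorOf r H Q w)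

end

/-! ### Auxiliary lemmas -/

theorem iter_eq {r : ℕ} (T : Polynomial ℤ) (A : Fin r → Fin r → Polynomial ℤ) (s : ℕ) :
    iter T A s = Pool.Agent.Y120.GH.itm T A s := by
  induction s with
  | zero => rfl
  | succ s ih =>
    funext i j
    rw [iter, Pool.Agent.Y120.GH.itm, ih]

theorem qu_eq {r : ℕ} {T : Polynomial ℤ} {A : Fin r → Fin r → Polynomial ℤ} (h : QuasiUnipotent T A) :
    Pool.Agent.Y120.GH.QU0 T A := by
  obtain ⟨e, M, K, Φ, he, hdet, hc, heq⟩ := h
  have he0 : e ≠ 0 := by omega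
  refine ⟨e, he0, M, K, Φ, hc, fun i j n => ?_, hdet⟩
  have h1 := heq i j n
  simp only [atPow] at h1
  rw [Pool.Agent.Y120.GH.expand_poly he0]
  simp only [Pool.Agent.Y120.GH.expand_poly he0]
  exact h1

theorem gal_eq {r : ℕ} {T : Polynomial ℤ} {A : Fin r → Fin r → Polynomial ℤ} {h : Fin r → PowerSeries ℚ}
    (hG : GFamily T A h) : ∃ C : ℝ, ∀ m, ∃ d : ℕ, 0 < d ∧ (d : ℝ) ≤ C ^ (m + 1) ∧ ∀ s ≤ m, ∀ i j, ∃ H : Polynomial ℤ,
      (d : Polynomial ℤ) * Pool.Agent.Y120.GH.itm T A s i j = (s.factorial : Polynomial ℤ) * H := by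
  obtain ⟨C, hC⟩ := hG.galochkin
  refine ⟨C, fun m => ?_⟩
  obtain ⟨d, h1, h2, h3⟩ := hC m
  refine ⟨d, h1, h2, fun s hs i' j' => ?_⟩
  rw [← iter_eq]
  exact h3 s hs i' j'

theorem map_eq {n : ℕ} (M : Matrix (Fin n) (Fin n) ℚ) : toC M = Pool.Agent.Y119.HY.cm M := by
  ext i j
  rw [Pool.Agent.Y119.HY.cm_apply]
  rfl

theorem sym_inf {n : ℕ} {Z : Matrix (Fin n) (Fin n) (PowerSeries ℚ)} {X : Matrix (Fin n) (Fin n) ℂ} (h : Symmetry Z X) :
    Pool.Agent.Helper880_R3.Inf Z X := by
  intro R hR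
  refine Eq.trans ?_ (h R hR)
  unfold Pool.Agent.Helper880_R3.DX
  rw [map_sum]
  refine Finset.sum_congr rfl fun b _ => ?_
  rw [map_mul, map_sum, Matrix.mul_apply]
  refine congrArg₂ (· * ·) rfl (Finset.sum_congr rfl fun l _ => ?_)
  rw [map_mul, MvPolynomial.aeval_C, MvPolynomial.aeval_X, Matrix.map_apply, Matrix.map_apply]
  have h1 : algebraMap (Polynomial ℂ) (PowerSeries ℂ) (Polynomial.C (X b.1 l)) = PowerSeries.C (X b.1 l) :=
    Polynomial.coe_C _
  rw [h1]
  rfl

theorem pres_of {g : ℕ} {A : AbVar g} {H : Matrix (Fin (2 * g)) (Fin (2 * g)) ℚ}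
    {P : Matrix (Fin (2 * g)) (Fin (2 * g)) ℂ} (h : Presents A H P) : ∃ R, Pool.Agent.H936.SL.Pres A H P R := by
  obtain ⟨R, T, q, hR, hP, hT, hq, hPT, hE⟩ := h
  set e := Pool.Agent.R917.eqv g with he
  set Ts : Matrix (Fin (2 * g)) (Fin (2 * g)) ℂ := T.submatrix e.symm id with hTs
  have h1 : P = Pool.Agent.Y119.HY.cm R * Pool.Agent.R917.PM A * Ts := by
    rw [hPT, map_eq, Matrix.mul_assoc, Matrix.mul_assoc]
    congr 1
    ext a b
    rw [Matrix.mul_apply, Matrix.mul_apply, ← Equiv.sum_comp e]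
    refine Finset.sum_congr rfl fun i _ => ?_
    rw [Pool.Agent.R917.PM_apply, hTs, Matrix.submatrix_apply, Equiv.symm_apply_apply]
    rfl
  have h2 : IsUnit Ts.det := by
    have h3 := (Matrix.isUnit_iff_isUnit_det _).1 hP
    rw [h1, Matrix.det_mul] at h3
    exact isUnit_of_mul_isUnit_right h3
  refine ⟨R, Ts, Ts⁻¹, q, (Matrix.isUnit_iff_isUnit_det _).1 hR, Matrix.mul_nonsing_inv _ h2, fun i j => hT _ _, hq, h1, ?_⟩
  ext a b
  have h3 := hE a b
  have h4 : ∀ c d, riemannForm A.lam A.η (A.lam c) (A.lam d) = ((Pool.Agent.H936.SL.EM A c d : ℚ) : ℂ) := by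
    intro c d
    have h5 := A.rf_eq (Pi.single c 1) (Pi.single d 1)
    have h6 : ∀ c : Fin (2 * g), A.per (Pi.single c 1) = A.lam c := by
      intro c
      have h7 := A.per_bas c
      have h8 : A.bas c = Pi.single c 1 := Pi.basisFun_apply ℚ (Fin (2 * g)) c
      rwa [h8] at h7
    rw [h6, h6] at h5
    exact h5
  simp only [h4] at h3
  have h5 : (((R * Pool.Agent.H936.SL.EM A * Rᵀ) a b : ℚ) : ℂ) = ((q * H a b : ℚ) : ℂ) := by
    push_cast
    rw [← h3, Matrix.mul_apply]
    push_cast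
    rw [Finset.sum_comm]
    refine Finset.sum_congr rfl fun d _ => ?_
    rw [Matrix.mul_apply, Matrix.transpose_apply]
    push_cast
    rw [Finset.sum_mul]
  rw [Matrix.smul_apply, smul_eq_mul]
  exact_mod_cast h5

theorem endo_of {g : ℕ} {A : AbVar g} {X : Module.End ℚ A.H1} (h : IsEndo A X) :
    Pool.Agent.W516.DR.IsDeRhamBettiEnd Pool.Agent.Y102.QBar A.dR X := by
  obtain ⟨a, ha, h⟩ := h
  exact ⟨fun i j => ⟨a i j, mem_algebraicClosure_iff.2 (ha i j)⟩, h⟩

/-- **The theorem.** -/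
theorem result (g : ℕ) (hg : 2 ≤ g) (T : Polynomial ℤ) (A : Fin (2 * g * (2 * g)) → Fin (2 * g * (2 * g)) → Polynomial ℤ)
    (Z : Matrix (Fin (2 * g)) (Fin (2 * g)) (PowerSeries ℚ)) (hG : GFamily T A (entries Z)) :
    ∃ G : ℕ, 1 ≤ G ∧ ∀ (C : Matrix (Fin (2 * g)) (Fin (2 * g)) ℂ) (H : Matrix (Fin (2 * g)) (Fin (2 * g)) ℚ),
      IsUnit H → Hᵀ = -H → BigMonodromy Z C H → ∀ A₀ : AbVar g, Presents A₀ H C → HasExtraEndo A₀ →
      ∀ (N D r : ℕ) (C₀ : Matrix (Fin r) (Fin r) ℂ), 0 < N → IsUnit C₀ → Linked C₀ C →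
      ∃ E : ℕ, ∀ t : Fin N → ℕ, InWindow G E t → (∀ j, ∃ A : AbVar g, Presents A H (C * value Z (t j))) →
      Good D C₀ H fun j => C * value Z (t j) := by
  obtain ⟨q', C', hG'⟩ := Pool.Agent.Y120.GH.gsys_of hG.ode hG.size hG.den (gal_eq hG)
  obtain ⟨G, hG1, h⟩ := Pool.Agent.H936.SL.main2 hg hG.T_ne hG.ode hG' (qu_eq hG.regular)
  refine ⟨G, hG1, fun C H hHu hHt hmon A₀ hA₀ hX N D r C₀ hN hC₀ hl => ?_⟩
  have hC : IsUnit C.det := by
    obtain ⟨-, -, -, -, hC, -⟩ := hA₀
    exact (Matrix.isUnit_iff_isUnit_det _).1 hC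
  have hHd : IsUnit H.det := (Matrix.isUnit_iff_isUnit_det _).1 hHu
  obtain ⟨R₀, hR₀⟩ := pres_of hA₀
  obtain ⟨X₀, hX₀, hns⟩ := hX
  have hl' : (∃ s, s < (2 * g + 1).choose 2 ∧ Pool.Agent.Helper880_R3.Few s C₀ C) ∨
      (∃ (s : ℕ) (b : Fin s → ℂ), s + 3 ≤ 2 * g ∧
        ∀ i j, IsAlgebraic (IntermediateField.adjoin ℚ (insert (2 * Real.pi * Complex.I : ℂ) (Set.range b ∪
          Set.range fun p : Fin (2 * g) × Fin (2 * g) => C p.1 p.2))) (C₀ i j)) := by
    rcases hl with ⟨s, b, κ, h1, h2, h3, h4⟩ | h1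
    · exact Or.inl ⟨s, h1, b, κ, h2, h3, h4⟩
    · exact Or.inr h1
  obtain ⟨E, hE⟩ := h C H hHt hHd hC (fun X hX => sym_inf (hmon X (by rw [map_eq]; exact hX))) A₀ R₀ hR₀ X₀ (endo_of hX₀) hns
    N D r C₀ hN ((Matrix.isUnit_iff_isUnit_det _).1 hC₀) hl'
  refine ⟨E, fun t ht hpres K hK hKD S hS hSr hmem => ?_⟩
  have hS' := Pool.Agent.Y123.ST.subT_iff.1 hS
  have hL := hE t ht.1 ht.2.1 ht.2.2 K hK hKD S hS' hSr hmem fun j => by
    obtain ⟨A, hA⟩ := hpres j
    obtain ⟨R, hR⟩ := pres_of hA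
    exact ⟨A, R, hR⟩
  have hHc : IsUnit (Pool.Agent.Y119.HY.cm H).det := by
    have h1 : Pool.Agent.Y119.HY.cm H * Pool.Agent.Y119.HY.cm H⁻¹ = 1 := by
      rw [← Pool.Agent.Y119.HY.cm_mul, Matrix.mul_nonsing_inv _ hHd, Pool.Agent.Y119.HY.cm_one]
    have h2 := congrArg Matrix.det h1
    rw [Matrix.det_mul, Matrix.det_one] at h2
    exact IsUnit.of_mul_eq_one _ h2
  have hHct : (Pool.Agent.Y119.HY.cm H)ᵀ = -Pool.Agent.Y119.HY.cm H := by
    rw [← Pool.Agent.Y119.HY.cm_transpose, hHt, Pool.Agent.Y119.HY.cm_neg]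
  have hSpf : Pool.Agent.Y123.GN.Spf (Pool.Agent.Y119.HY.cm H) :=
    ⟨(Matrix.isUnit_iff_isUnit_det _).2 hHc, hHct⟩
  have hgrp : ∀ γ : Fin N → (Matrix (Fin (2 * g)) (Fin (2 * g)) ℂ)ˣ,
      (∀ j, γ j ∈ Pool.Agent.Y123.GN.GB (Pool.Agent.Y119.HY.cm H)) →
      ∀ x ∈ S, total 1 (fun j => (γ j : Matrix (Fin (2 * g)) (Fin (2 * g)) ℂ)) * x ∈ S := fun γ hγ x hx =>
    Pool.Agent.H936.SL.sp_stab hHct hHc hS' hL γ hγ hx
  refine ⟨fun γ hγ x hx => ?_, fun hr hC₀ Q w hST => ?_⟩
  · choose u hu hu' using fun j => Pool.Agent.Y123.GN.quot_GB (X := 1) (Y := γ j) (μ := 1)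
      (B := Pool.Agent.Y119.HY.cm H) (Q := Pool.Agent.Y119.HY.cm H) one_ne_zero isUnit_one
      (by rw [Matrix.one_mul, Matrix.transpose_one, Matrix.mul_one, one_smul])
      (by rw [one_smul, ← map_eq]; exact hγ j) (Or.inl hSpf)
    have h1 := hgrp u hu x hx
    have h2 : (fun j => (u j : Matrix (Fin (2 * g)) (Fin (2 * g)) ℂ)) = γ := by
      funext j
      have h3 := hu' j
      rwa [Matrix.mul_one] at h3
    rwa [h2] at h1
  · have hKalg : ∀ x ∈ K, IsAlgebraic ℚ x := by
      intro x hx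
      have : NumberField K := { to_charZero := inferInstance, to_finiteDimensional := hK }
      have h6 : IsAlgebraic ℚ (⟨x, hx⟩ : K) := Algebra.IsAlgebraic.isAlgebraic _
      exact h6.algebraMap (A := ℂ)
    have hFT : torsorOf r H Q w = Pool.Agent.Helper880_R3.FT r (Pool.Agent.Y119.HY.cm H) Q w (fun _ => 0) fun _ => 1 := by
      ext y
      constructor
      · rintro ⟨z, hz, X, hy, hX⟩
        refine ⟨z, hz, X, hy, fun j => ⟨?_, Or.inl hSpf⟩⟩
        rw [← map_eq]
        exact hX j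
      · rintro ⟨z, hz, X, hy, hX⟩
        refine ⟨z, hz, X, hy, fun j => ?_⟩
        rw [map_eq]
        exact (hX j).1
    rw [hC₀] at hmem
    rw [hFT] at hST ⊢
    exact Pool.Agent.Helper880_R3.absolute hKalg hr hS' hmem hgrp hST

end Pool.Agent.Results.MP_f11a48_ag.NearExtraEndomorphisms
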