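import Pool.Agent.H936.G.Spc3

/-!
# De Rham-Betti classes on all fibres near a special abelian variety

Let `A_x` be a polarised family of abelian varieties of dimension `g ≥ 2` over `ℚ`, over an open part of the line, with
Zariski dense monodromy in the symplectic group, and let `A_0` be a **special** member: the de Rham-Betti group of `h^1(A_0)`
does not contain the symplectic group. More precisely, some subtorsor `S_0` of the torsor of all isomorphisms
`H^1_dR (A_0) → H^1_B (A_0)`, over some field of algebraic numbers, contains the period matrix, has a group which is defined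
over `ℚ`, and is not stable under `Sp`. As `Ω^dRB ⊆ Ω^And` and as Hodge classes on abelian varieties are motivated (André),
this is the case if the Mumford-Tate group of `A_0` is smaller than `GSp`, for example if `End (A_0) ≠ ℤ` (this is the first
alternative in `Special`, for which the torsor is constructed here), or for the fourfolds of Mumford with `End (A_0) = ℤ`,
or if `A_0` has exceptional Hodge classes; and it is also the case if `A_0` is generic in the sense of Hodge and the
conjecture is false for `A_0`. Nothing is assumed about the transcendence of the periods of `A_0`.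

Let `P(x) = C Z(x)` be the period matrix of `h^1(A_x)` near `0`: `Z` is a matrix of G-functions over `ℚ`, and `C` is the
matrix of the periods of `A_0`. Let `M_0` be another motive (or any de Rham-Betti object) over `ℚ` with period matrix
`C₀`, and

  `c = C₀ ⊕ P(1 / t_1) ⊕ … ⊕ P(1 / t_N)`,

the period matrix of `M = M_0 ⊕ ⨁ h^1(A_{t_j})`. The torsor `Ω^dRB_M` of the problem is a subtorsor over `K` with `c` as
a point, whose group (on the Betti side) is defined over `ℚ`.

**Theorem.** Let `D`, `N`, `C₀` be given. There are `G` (which depends only on the family) and `E` such that for **all**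
`t_1, …, t_N` which are distinct, congruent modulo `G`, with `(t_i - t_j + 2) ^ E ≤ t_j` (for `N = 1` these are all
`t ≥ 2 ^ E`), **all** number fields `K` with `[K : ℚ] ≤ D` and **all** `K`-subtorsors `S` with `c ∈ S` whose group is
defined over `ℚ`:

1. `S` is stable under `1 × Sp × … × Sp`.
2. In the absolute case `C₀ = 2 π i` (`M_0 = ℚ(-1) ^ r`; this object is in the category generated by `h^1(A_t)`) `S` is
   equal to the torsor `T_pol` of all isomorphisms which respect the polarisations as soon as it is contained in it. As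
   `Ω^dRB_M ⊆ Ω^And_M ⊆ T_pol`, these three torsors are equal: the second equality of the conjecture (`Ω^dRB = Ω^And`)
   is true for all `M` in the tensor category generated by `ℚ(1)` and the `h^1(A_{t_j})`, all de Rham-Betti classes are
   Hodge classes and products of classes of divisors, and `End_K (A_{t_j}) = ℤ`, `Hom_K (A_{t_i}, A_{t_j}) = 0`.

So for every family of this kind and every fibre `A_0` there is the **dichotomy**: `Ω^dRB = Ω^And = T_pol` for `A_0`, or
`Ω^dRB = Ω^And = T_pol` for all the fibres `A_{1/t}` with large integral `t` (and for their products in windows).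

Part 1 needs a condition (`Linked`) on `M_0`: either `C₀` and `C` together generate, up to algebraic numbers and one
common factor, a field of transcendence degree less than `g (2 g + 1) = dim Sp`; or `C₀` is algebraic over the
field generated by `2 π i`, the periods of `A_0` and `s ≤ 2 g - 3` other numbers. So all `M_0` in the category generated by
`h^1(A_0)` are possible: the periods of the fibres are independent of those of `A_0`.

The known theorems on **all** fibres with large parameter (`AllLargeParameters`, `AllFibresFewCentralPeriods`) have the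
condition that there are at most `2 g - 2` central periods. Here there is no such condition, and the reason why there
are no exceptional fibres is a different one.

**Proof** (`Pool/Agent/H936/G`). By the theorem on the linear independence of values of G-functions at many points
(`Y118/HX/WinM`) and the ultraproduct `ℂ^*` there is for each `X` in `𝔰𝔭` and each `j` a derivation `δ` of `ℂ^*` over `ℚ^*`
with `δ(Z_j) Z_j⁻¹ = C⁻¹ X C`, `δ(Z_i) = 0` for `i ≠ j`; the limit `L` of the Lie algebras of the groups of `S` is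
normalised by `(δ(C₀) C₀⁻¹, F + X e_j)`, `F = δ(C) C⁻¹` (`Helper880_R3`). We have no control over `F`, but it lies in the Lie
algebra of `S_0` (`ld_GU`). So with `𝔩` the `j`-th projection of `L`, `𝔫(𝔩)` its normaliser and `𝔩_0` the symplectic part of
the Lie algebra of `S_0`, `𝔰𝔭 = 𝔫(𝔩) + 𝔩_0`: the symplectic algebra is a sum of two subalgebras. By the theorem of
Schneider and Lang in the form of Bost (`Y102`), and by the positivity of the polarisation, `𝔩` and `𝔩_0` are not zero and
their trace forms are nondegenerate: here we use that the groups are defined over `ℚ`. The main new result is the following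
theorem on factorisations in the spirit of Onishchik (`OG`, `Lead`, `Fact`, `thmE`): let `𝔩_1, 𝔩_2 ⊆ 𝔰𝔭(V)` be subspaces with
nondegenerate trace forms, `dim V ≥ 3`. If `𝔰𝔭(V) = 𝔫(𝔩_1) + 𝔫(𝔩_2)`, then `𝔩_1` or `𝔩_2` is `0` or `𝔰𝔭(V)`. The proof does not
use the classification: with `P_i` the projections to `𝔩_i` for the trace form, `tr (P_1 g P_2 g⁻¹)^k` does not depend on
`g ∈ Sp`, and the behaviour at infinity along the one-parameter groups of long and short roots gives identities for the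
quartic forms `tr (P_i(v v) v v)` which force them to be constant multiples of the identity. Finally, as `F` is in a proper
subalgebra, the periods of `A_0` have less than `dim 𝔰𝔭` independent derivatives, so some `X ≠ 0` occurs with `F = 0`, and
as `L` is closed under commutators it contains `𝔰𝔭 e_j`.

Nothing is assumed about periods: `AbVar` is the description of an abelian variety over `ℚ̄` by theta functions
(`Pool/Agent/Y102/AVDefs.lean` explains why every abelian variety has it).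
-/

set_option autoImplicit false

open PowerSeries Filter
open scoped Matrix

namespace Pool.Agent.Results.MP_f11a48_ag.NearSpecialFibres

open Pool.Agent.Y102 (AbVar riemannForm)

/-! ### G-functions -/

/-- an integer polynomial as a power series with rational coefficients -/
noncomputable def toQ (P : Polynomial ℤ) : PowerSeries ℚ := ((P.map (Int.castRingHom ℚ) : Polynomial ℚ) : PowerSeries ℚ)

/-- the power series `P(u^e)` -/
noncomputable def atPow (e : ℕ) (P : Polynomial ℤ) : PowerSeries ℂ :=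
  ((Polynomial.expand ℂ e (P.map (Int.castRingHom ℂ)) : Polynomial ℂ) : PowerSeries ℂ)

/-- the matrices `G_s` over `ℤ[x]` with `T^s y^(s) = G_s y` for all solutions `y` of `T y' = A y` -/
noncomputable def iter {r : ℕ} (T : Polynomial ℤ) (A : Fin r → Fin r → Polynomial ℤ) : ℕ → Fin r → Fin r → Polynomial ℤ
  | 0 => fun i j => if i = j then 1 else 0
  | s + 1 => fun i j => T * Polynomial.derivative (iter T A s i j) + ∑ l, iter T A s i l * A l j -
      (s : Polynomial ℤ) * (Polynomial.derivative T * iter T A s i j)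

/-- The system `T y' = A y` has a fundamental matrix of solutions of the form `u^(-M) ∑_n Φ_n(u) (log u)^n` with
`u^e = x` and convergent power series `Φ_n`: the point `0` is regular or a regular singularity with rational
exponents. -/
def QuasiUnipotent {r : ℕ} (T : Polynomial ℤ) (A : Fin r → Fin r → Polynomial ℤ) : Prop :=
  ∃ (e M : ℕ) (K : ℝ) (Φ : Matrix (Fin r) (Fin r) (Polynomial (PowerSeries ℂ))), 1 ≤ e ∧ Φ.det ≠ 0 ∧
    (∀ i j n m, ‖coeff m ((Φ i j).coeff n)‖ ≤ K ^ (m + 1)) ∧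
    ∀ i j n, atPow e T * (X * PowerSeries.derivative ℂ ((Φ i j).coeff n) +
        ((n : PowerSeries ℂ) + 1) * (Φ i j).coeff (n + 1) - (M : PowerSeries ℂ) * (Φ i j).coeff n) =
      (e : PowerSeries ℂ) * X ^ e * ∑ l, atPow e (A i l) * (Φ l j).coeff n

/-- `h_1, ..., h_r` are G-functions with rational coefficients which solve the differential system `T y' = A y`, with
the conditions of Siegel and Galochkin, and `0` is a regular point or a regular singularity with rational exponents of
the system. -/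
structure GFamily {r : ℕ} (T : Polynomial ℤ) (A : Fin r → Fin r → Polynomial ℤ) (h : Fin r → PowerSeries ℚ) : Prop where
  /-- the denominator is not zero -/
  T_ne : T ≠ 0
  /-- the differential equations -/
  ode : ∀ i, toQ T * PowerSeries.derivative ℚ (h i) = ∑ j, toQ (A i j) * h j
  /-- the coefficients have geometric growth -/
  size : ∃ C : ℝ, ∀ i m, |((coeff m (h i) : ℚ) : ℝ)| ≤ C ^ (m + 1)
  /-- the common denominators of the coefficients have geometric growth -/
  den : ∃ C : ℝ, ∀ m : ℕ, ∃ d : ℕ, 0 < d ∧ (d : ℝ) ≤ C ^ (m + 1) ∧ ∀ i, ∀ j ≤ m, ∃ a : ℤ, (d : ℚ) * coeff j (h i) = a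
  /-- Galochkin's condition: the common denominators of the matrices `G_s / s!` have geometric growth -/
  galochkin : ∃ C : ℝ, ∀ m : ℕ, ∃ d : ℕ, 0 < d ∧ (d : ℝ) ≤ C ^ (m + 1) ∧ ∀ s ≤ m, ∀ i j,
    ∃ H : Polynomial ℤ, (d : Polynomial ℤ) * iter T A s i j = (s.factorial : Polynomial ℤ) * H
  /-- the local exponents at `0` are rational and the singularity is regular -/
  regular : QuasiUnipotent T A

section family
variable {n : ℕ}

/-- the entries of a matrix -/
def entries (Z : Matrix (Fin n) (Fin n) (PowerSeries ℚ)) : Fin (n * n) → PowerSeries ℚ := fun a =>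
  Z (finProdFinEquiv.symm a).1 (finProdFinEquiv.symm a).2

/-- rational matrices as complex matrices -/
def toC (M : Matrix (Fin n) (Fin n) ℚ) : Matrix (Fin n) (Fin n) ℂ := M.map fun x : ℚ => (x : ℂ)

/-- the matrix `Z(1 / t)` -/
noncomputable def value (Z : Matrix (Fin n) (Fin n) (PowerSeries ℚ)) (t : ℕ) : Matrix (Fin n) (Fin n) ℂ :=
  Matrix.of fun i j => ((∑' k : ℕ, ((coeff k (Z i j) : ℚ) : ℝ) * (1 / (t : ℝ)) ^ k : ℝ) : ℂ)

/-- the matrix of power series with complex coefficients -/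
noncomputable def overC (Z : Matrix (Fin n) (Fin n) (PowerSeries ℚ)) : Matrix (Fin n) (Fin n) (PowerSeries ℂ) :=
  Z.map (PowerSeries.map (algebraMap ℚ ℂ))

/-- `X` is an infinitesimal symmetry of `Z`: for all polynomial relations `R(x, Z(x)) = 0` over `ℂ[x]` the derivative of
`R(x, (1 + ε X) Z(x))` at `ε = 0` is zero. -/
def Symmetry (Z : Matrix (Fin n) (Fin n) (PowerSeries ℚ)) (X : Matrix (Fin n) (Fin n) ℂ) : Prop :=
  ∀ R : MvPolynomial (Fin n × Fin n) (Polynomial ℂ), MvPolynomial.aeval (fun b => overC Z b.1 b.2) R = 0 →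
    ∑ b, MvPolynomial.aeval (fun b => overC Z b.1 b.2) (MvPolynomial.pderiv b R) *
      (X.map (PowerSeries.C (R := ℂ)) * overC Z) b.1 b.2 = 0

/-- **Big monodromy**: the Lie algebra of the symplectic group of `H` (on the Betti side) consists of infinitesimal
symmetries of the matrix `P(x) = C Z(x)` of the periods. It is sufficient that the monodromy group of the family is
Zariski dense in the symplectic group of `H`. -/
def BigMonodromy (Z : Matrix (Fin n) (Fin n) (PowerSeries ℚ)) (C : Matrix (Fin n) (Fin n) ℂ)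
    (H : Matrix (Fin n) (Fin n) ℚ) : Prop :=
  ∀ X : Matrix (Fin n) (Fin n) ℂ, X * toC H + toC H * Xᵀ = 0 → Symmetry Z (C⁻¹ * X * C)

/-- Either `C₀` and `C` are up to one common factor algebraic over a field generated by less than
`n (n + 1) / 2 = dim Sp` numbers, or `C₀` is algebraic over a field which is generated by `2 π i`, the entries of `C` and
at most `n - 3` other numbers. -/
def Linked {r : ℕ} (C₀ : Matrix (Fin r) (Fin r) ℂ) (C : Matrix (Fin n) (Fin n) ℂ) : Prop :=
  (∃ (s : ℕ) (b : Fin s → ℂ) (κ : ℂ), s < (n + 1).choose 2 ∧ κ ≠ 0 ∧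
    (∀ i j, IsAlgebraic (IntermediateField.adjoin ℚ (Set.range b)) (κ * C₀ i j)) ∧
    ∀ i j, IsAlgebraic (IntermediateField.adjoin ℚ (Set.range b)) (κ * C i j)) ∨
  ∃ (s : ℕ) (b : Fin s → ℂ), s + 3 ≤ n ∧ ∀ i j, IsAlgebraic (IntermediateField.adjoin ℚ
    (insert (2 * Real.pi * Complex.I : ℂ) (Set.range b ∪ Set.range fun p : Fin n × Fin n => C p.1 p.2))) (C₀ i j)

end family

/-- the numbers `t_j` are distinct and congruent modulo `G`, and `(t_i - t_j + 2)^E ≤ t_j` -/
def InWindow (G E : ℕ) {N : ℕ} (t : Fin N → ℕ) : Prop :=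
  Function.Injective t ∧ (∀ i j, t i ≡ t j [MOD G]) ∧ ∀ i j, (t i - t j + 2) ^ E ≤ t j

/-! ### Abelian varieties -/

section abelian
variable {g : ℕ} (A : AbVar g)

/-- The matrix of the periods of `A`: the integrals over the basis of the lattice of the invariant differentials `d z k`
and of the differentials of the second kind `d (∂ k (log θ 0))`, a basis of `H^1_dR (A / ℚ̄)`. -/
noncomputable def periods : Matrix (Fin (2 * g)) (Fin g ⊕ Fin g) ℂ := Matrix.of fun a i => A.dR i (Pi.single a 1)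

/-- `P` is the matrix of the comparison isomorphism `H^1_dR → H^1_B` of `A` for some basis `R` of the rational homology, in
which the Riemann form has the matrix `H` up to a rational factor, and some basis of the de Rham cohomology over `ℚ̄`
(given by `T`). -/
def Presents (H : Matrix (Fin (2 * g)) (Fin (2 * g)) ℚ) (P : Matrix (Fin (2 * g)) (Fin (2 * g)) ℂ) : Prop :=
  ∃ (R : Matrix (Fin (2 * g)) (Fin (2 * g)) ℚ) (T : Matrix (Fin g ⊕ Fin g) (Fin (2 * g)) ℂ) (q : ℚ),
    IsUnit R ∧ IsUnit P ∧ (∀ i j, IsAlgebraic ℚ (T i j)) ∧ q ≠ 0 ∧ P = toC R * periods A * T ∧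
    ∀ a b, ∑ c, ∑ d, (R a c : ℂ) * riemannForm A.lam A.η (A.lam c) (A.lam d) * (R b d : ℂ) = (q : ℂ) * (H a b : ℂ)

/-- `X` is an endomorphism of `A` (up to isogeny), in terms of its action on `H_1(A, ℚ)`: it respects the de Rham
structure over `ℚ̄`. (By the theorem of Bost, which is proved in `Pool.Agent.Y102.AbVar.hodge_end`, these are the
elements of `End (A) ⊗ ℚ`.) -/
def IsEndo (X : Module.End ℚ A.H1) : Prop :=
  ∃ a : Fin g ⊕ Fin g → Fin g ⊕ Fin g → ℂ, (∀ i j, IsAlgebraic ℚ (a i j)) ∧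
    ∀ i w, A.dR i (X w) = ∑ j, a i j * A.dR j w

/-- `End (A) ≠ ℤ` -/
def HasExtraEndo : Prop := ∃ X : Module.End ℚ A.H1, IsEndo A X ∧ ∀ c : ℚ, X ≠ c • (1 : Module.End ℚ A.H1)

end abelian

/-! ### Torsors -/

/-- `S` is (the set of complex points of) a `K`-subtorsor of `GL_B = Iso (M_dR, M_B)`: it is closed under `x y⁻¹ z`, and
it is defined in `GL_B` by polynomials with coefficients in `K`. -/
def IsSubtorsor (K : Subfield ℂ) {B : Type} [Fintype B] [DecidableEq B] (S : Set (Matrix B B ℂ)) : Prop :=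
  (∀ x ∈ S, ∀ y ∈ S, ∀ z ∈ S, x * y⁻¹ * z ∈ S) ∧ ∃ I : Set (MvPolynomial (B × B) K), ∀ x : Matrix B B ℂ, x ∈ S ↔
    IsUnit x ∧ ∀ p ∈ I, MvPolynomial.eval (fun b => x b.1 b.2) (MvPolynomial.map (algebraMap K ℂ) p) = 0

/-- The group of the torsor `S` on the Betti side, the set of the `x y⁻¹` with `x`, `y` in `S`, is defined over `ℚ`: it is
stable under all automorphisms of the field of complex numbers. -/
def RationalGroup {B : Type} [Fintype B] [DecidableEq B] (S : Set (Matrix B B ℂ)) : Prop :=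
  ∀ σ : ℂ ≃+* ℂ, ∀ x ∈ S, ∀ y ∈ S, ∃ x' ∈ S, ∃ y' ∈ S, (x * y⁻¹).map σ = x' * y'⁻¹

/-- `A₀` is special: it has an endomorphism (up to isogeny) which is not a rational number, or there is a subtorsor `S` of
the torsor of all isomorphisms from `H^1_dR` to `H^1_B`, over a field of algebraic numbers, which contains the matrix `C`
of the periods, whose group is defined over `ℚ`, and which is not stable under the symplectic group of `H`. -/
def Special {g : ℕ} (A₀ : AbVar g) (H : Matrix (Fin (2 * g)) (Fin (2 * g)) ℚ) (C : Matrix (Fin (2 * g)) (Fin (2 * g)) ℂ) :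
    Prop :=
  HasExtraEndo A₀ ∨ ∃ (K : Subfield ℂ) (S : Set (Matrix (Fin (2 * g)) (Fin (2 * g)) ℂ)), (∀ x ∈ K, IsAlgebraic ℚ x) ∧
    IsSubtorsor K S ∧ RationalGroup S ∧ C ∈ S ∧
    ∃ γ : Matrix (Fin (2 * g)) (Fin (2 * g)) ℂ, γ * toC H * γᵀ = toC H ∧ ∃ x ∈ S, γ * x ∉ S

section
variable {n N r : ℕ}

/-- the block matrix `x ⊕ X_1 ⊕ … ⊕ X_N` -/
def total (x : Matrix (Fin r) (Fin r) ℂ) (X : Fin N → Matrix (Fin n) (Fin n) ℂ) :
    Matrix (Fin r ⊕ (Fin n × Fin N)) (Fin r ⊕ (Fin n × Fin N)) ℂ :=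
  Matrix.fromBlocks x 0 0 (Matrix.blockDiagonal X)

/-- The torsor `T_pol` of the isomorphisms `z ⊕ … ⊕ z ⊕ X_1 ⊕ … ⊕ X_N` of an `r`-fold sum of the object `ℚ(-1)` and of the
`M_j` which respect the polarisations `Q_j` (de Rham) and `H` (Betti), with values in `ℚ(-w_j)`. -/
def torsorOf (r : ℕ) (H : Matrix (Fin n) (Fin n) ℚ) (Q : Fin N → Matrix (Fin n) (Fin n) ℂ) (w : Fin N → ℤ) :
    Set (Matrix (Fin r ⊕ (Fin n × Fin N)) (Fin r ⊕ (Fin n × Fin N)) ℂ) :=
  {y | ∃ z : ℂ, z ≠ 0 ∧ ∃ X : Fin N → Matrix (Fin n) (Fin n) ℂ, y = total (z • 1) X ∧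
    ∀ j, X j * Q j * (X j)ᵀ = z ^ (w j) • toC H}

/-- The conclusion for one tuple of parameters; `P j` is the period matrix of the fibre. -/
def Good (D : ℕ) (C₀ : Matrix (Fin r) (Fin r) ℂ) (H : Matrix (Fin n) (Fin n) ℚ)
    (P : Fin N → Matrix (Fin n) (Fin n) ℂ) : Prop :=
  ∀ K : Subfield ℂ, FiniteDimensional ℚ K → Module.finrank ℚ K ≤ D →
  ∀ S : Set (Matrix (Fin r ⊕ (Fin n × Fin N)) (Fin r ⊕ (Fin n × Fin N)) ℂ), IsSubtorsor K S → RationalGroup S →
  total C₀ P ∈ S →
  -- 1: stability under the symplectic groups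
  (∀ γ : Fin N → Matrix (Fin n) (Fin n) ℂ, (∀ j, γ j * toC H * (γ j)ᵀ = toC H) → ∀ x ∈ S, total 1 γ * x ∈ S) ∧
  -- 2: the absolute case
  (0 < r → C₀ = (2 * Real.pi * Complex.I : ℂ) • 1 →
    ∀ (Q : Fin N → Matrix (Fin n) (Fin n) ℂ) (w : Fin N → ℤ), S ⊆ torsorOf r H Q w → S = torsorOf r H Q w)

end

/-! ### Auxiliary lemmas -/

theorem iter_eq {r : ℕ} (T : Polynomial ℤ) (A : Fin r → Fin r → Polynomial ℤ) (s : ℕ) :
    iter T A s = Pool.Agent.Y120.GH.itm T A s := by
  induction s with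
  | zero => rfl
  | succ s ih =>
    funext i j
    rw [iter, Pool.Agent.Y120.GH.itm, ih]

theorem qu_eq {r : ℕ} {T : Polynomial ℤ} {A : Fin r → Fin r → Polynomial ℤ} (h : QuasiUnipotent T A) :
    Pool.Agent.Y120.GH.QU0 T A := by
  obtain ⟨e, M, K, Φ, he, hdet, hc, heq⟩ := h
  have he0 : e ≠ 0 := by omega
  refine ⟨e, he0, M, K, Φ, hc, fun i j n => ?_, hdet⟩
  have h1 := heq i j n
  simp only [atPow] at h1
  rw [Pool.Agent.Y120.GH.expand_poly he0]
  simp only [Pool.Agent.Y120.GH.expand_poly he0]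
  exact h1

theorem gal_eq {r : ℕ} {T : Polynomial ℤ} {A : Fin r → Fin r → Polynomial ℤ} {h : Fin r → PowerSeries ℚ}
    (hG : GFamily T A h) : ∃ C : ℝ, ∀ m, ∃ d : ℕ, 0 < d ∧ (d : ℝ) ≤ C ^ (m + 1) ∧ ∀ s ≤ m, ∀ i j, ∃ H : Polynomial ℤ,
      (d : Polynomial ℤ) * Pool.Agent.Y120.GH.itm T A s i j = (s.factorial : Polynomial ℤ) * H := by
  obtain ⟨C, hC⟩ := hG.galochkin
  refine ⟨C, fun m => ?_⟩
  obtain ⟨d, h1, h2, h3⟩ := hC m
  refine ⟨d, h1, h2, fun s hs i' j' => ?_⟩
  rw [← iter_eq]
  exact h3 s hs i' j'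

theorem map_eq {n : ℕ} (M : Matrix (Fin n) (Fin n) ℚ) : toC M = Pool.Agent.Y119.HY.cm M := by
  ext i j
  rw [Pool.Agent.Y119.HY.cm_apply]
  rfl

theorem sym_inf {n : ℕ} {Z : Matrix (Fin n) (Fin n) (PowerSeries ℚ)} {X : Matrix (Fin n) (Fin n) ℂ} (h : Symmetry Z X) :
    Pool.Agent.Helper880_R3.Inf Z X := by
  intro R hR
  refine Eq.trans ?_ (h R hR)
  unfold Pool.Agent.Helper880_R3.DX
  rw [map_sum]
  refine Finset.sum_congr rfl fun b _ => ?_
  rw [map_mul, map_sum, Matrix.mul_apply]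
  refine congrArg₂ (· * ·) rfl (Finset.sum_congr rfl fun l _ => ?_)
  rw [map_mul, MvPolynomial.aeval_C, MvPolynomial.aeval_X, Matrix.map_apply, Matrix.map_apply]
  have h1 : algebraMap (Polynomial ℂ) (PowerSeries ℂ) (Polynomial.C (X b.1 l)) = PowerSeries.C (X b.1 l) :=
    Polynomial.coe_C _
  rw [h1]
  rfl

theorem pres_of {g : ℕ} {A : AbVar g} {H : Matrix (Fin (2 * g)) (Fin (2 * g)) ℚ}
    {P : Matrix (Fin (2 * g)) (Fin (2 * g)) ℂ} (h : Presents A H P) : ∃ R, Pool.Agent.H936.SL.Pres A H P R := by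
  obtain ⟨R, T, q, hR, hP, hT, hq, hPT, hE⟩ := h
  set e := Pool.Agent.R917.eqv g with he
  set Ts : Matrix (Fin (2 * g)) (Fin (2 * g)) ℂ := T.submatrix e.symm id with hTs
  have h1 : P = Pool.Agent.Y119.HY.cm R * Pool.Agent.R917.PM A * Ts := by
    rw [hPT, map_eq, Matrix.mul_assoc, Matrix.mul_assoc]
    congr 1
    ext a b
    rw [Matrix.mul_apply, Matrix.mul_apply, ← Equiv.sum_comp e]
    refine Finset.sum_congr rfl fun i _ => ?_
    rw [Pool.Agent.R917.PM_apply, hTs, Matrix.submatrix_apply, Equiv.symm_apply_apply]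
    rfl
  have h2 : IsUnit Ts.det := by
    have h3 := (Matrix.isUnit_iff_isUnit_det _).1 hP
    rw [h1, Matrix.det_mul] at h3
    exact isUnit_of_mul_isUnit_right h3
  refine ⟨R, Ts, Ts⁻¹, q, (Matrix.isUnit_iff_isUnit_det _).1 hR, Matrix.mul_nonsing_inv _ h2, fun i j => hT _ _, hq, h1, ?_⟩
  ext a b
  have h3 := hE a b
  have h4 : ∀ c d, riemannForm A.lam A.η (A.lam c) (A.lam d) = ((Pool.Agent.H936.SL.EM A c d : ℚ) : ℂ) := by
    intro c d
    have h5 := A.rf_eq (Pi.single c 1) (Pi.single d 1)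
    have h6 : ∀ c : Fin (2 * g), A.per (Pi.single c 1) = A.lam c := by
      intro c
      have h7 := A.per_bas c
      have h8 : A.bas c = Pi.single c 1 := Pi.basisFun_apply ℚ (Fin (2 * g)) c
      rwa [h8] at h7
    rw [h6, h6] at h5
    exact h5
  simp only [h4] at h3
  have h5 : (((R * Pool.Agent.H936.SL.EM A * Rᵀ) a b : ℚ) : ℂ) = ((q * H a b : ℚ) : ℂ) := by
    push_cast
    rw [← h3, Matrix.mul_apply]
    push_cast
    rw [Finset.sum_comm]
    refine Finset.sum_congr rfl fun d _ => ?_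
    rw [Matrix.mul_apply, Matrix.transpose_apply]
    push_cast
    rw [Finset.sum_mul]
  rw [Matrix.smul_apply, smul_eq_mul]
  exact_mod_cast h5

theorem endo_of {g : ℕ} {A : AbVar g} {X : Module.End ℚ A.H1} (h : IsEndo A X) :
    Pool.Agent.W516.DR.IsDeRhamBettiEnd Pool.Agent.Y102.QBar A.dR X := by
  obtain ⟨a, ha, h⟩ := h
  exact ⟨fun i j => ⟨a i j, mem_algebraicClosure_iff.2 (ha i j)⟩, h⟩

/-- special fibres -/
theorem spc_of {g : ℕ} (hg : 0 < g) {A₀ : AbVar g} {H R : Matrix (Fin (2 * g)) (Fin (2 * g)) ℚ}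
    {C : Matrix (Fin (2 * g)) (Fin (2 * g)) ℂ} (hp : Pool.Agent.H936.SL.Pres A₀ H C R) (hH : Hᵀ = -H) (hd : IsUnit H.det)
    (hC : IsUnit C.det) (h : Special A₀ H C) : ∃ (K : Subfield ℂ) (S : Set (Matrix (Fin (2 * g)) (Fin (2 * g)) ℂ)),
      Pool.Agent.H936.G.Spc A₀ H C R K S := by
  rcases h with ⟨X₀, hX₀, hns⟩ | ⟨K, S, hK, hS, hSr, hm, γ, hγ, x, hx, hx'⟩
  · exact Pool.Agent.H936.G.spc_of_end hg hp hH hd hC (endo_of hX₀) hns
  · have hHc := Pool.Agent.H936.G.cm_unit hd
    have hHct : (Pool.Agent.Y119.HY.cm H)ᵀ = -Pool.Agent.Y119.HY.cm H := by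
      rw [← Pool.Agent.Y119.HY.cm_transpose, hH, Pool.Agent.Y119.HY.cm_neg]
    obtain ⟨u, hu, hu'⟩ := Pool.Agent.Y123.GN.quot_GB (X := 1) (Y := γ) (μ := 1)
      (B := Pool.Agent.Y119.HY.cm H) (Q := Pool.Agent.Y119.HY.cm H) one_ne_zero isUnit_one
      (by rw [Matrix.one_mul, Matrix.transpose_one, Matrix.mul_one, one_smul])
      (by rw [one_smul, ← map_eq]; exact hγ) (Or.inl ⟨(Matrix.isUnit_iff_isUnit_det _).2 hHc, hHct⟩)
    refine ⟨K, S, hK, Pool.Agent.Y123.ST.subT_iff.1 hS, hSr, hm, hp, u, hu, x, hx, ?_⟩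
    rw [Matrix.mul_one] at hu'
    rw [hu']
    exact hx'

/-- **The theorem.** -/
theorem result (g : ℕ) (hg : 2 ≤ g) (T : Polynomial ℤ) (A : Fin (2 * g * (2 * g)) → Fin (2 * g * (2 * g)) → Polynomial ℤ)
    (Z : Matrix (Fin (2 * g)) (Fin (2 * g)) (PowerSeries ℚ)) (hG : GFamily T A (entries Z)) :
    ∃ G : ℕ, 1 ≤ G ∧ ∀ (C : Matrix (Fin (2 * g)) (Fin (2 * g)) ℂ) (H : Matrix (Fin (2 * g)) (Fin (2 * g)) ℚ),
      IsUnit H → Hᵀ = -H → BigMonodromy Z C H → ∀ A₀ : AbVar g, Presents A₀ H C → Special A₀ H C →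
      ∀ (N D r : ℕ) (C₀ : Matrix (Fin r) (Fin r) ℂ), 0 < N → IsUnit C₀ → Linked C₀ C →
      ∃ E : ℕ, ∀ t : Fin N → ℕ, InWindow G E t → (∀ j, ∃ A : AbVar g, Presents A H (C * value Z (t j))) →
      Good D C₀ H fun j => C * value Z (t j) := by
  obtain ⟨q', C', hG'⟩ := Pool.Agent.Y120.GH.gsys_of hG.ode hG.size hG.den (gal_eq hG)
  obtain ⟨G, hG1, h⟩ := Pool.Agent.H936.G.fin_spc hg hG.T_ne hG.ode hG' (qu_eq hG.regular)
  refine ⟨G, hG1, fun C H hHu hHt hmon A₀ hA₀ hX N D r C₀ hN hC₀ hl => ?_⟩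
  have hC : IsUnit C.det := by
    obtain ⟨-, -, -, -, hC, -⟩ := hA₀
    exact (Matrix.isUnit_iff_isUnit_det _).1 hC
  have hHd : IsUnit H.det := (Matrix.isUnit_iff_isUnit_det _).1 hHu
  obtain ⟨R₀, hR₀⟩ := pres_of hA₀
  obtain ⟨K₀, S₀, hspc⟩ := spc_of (by omega) hR₀ hHt hHd hC hX
  have hl' : (∃ s, s < (2 * g + 1).choose 2 ∧ Pool.Agent.Helper880_R3.Few s C₀ C) ∨
      (∃ (s : ℕ) (b : Fin s → ℂ), s + 3 ≤ 2 * g ∧
        ∀ i j, IsAlgebraic (IntermediateField.adjoin ℚ (insert (2 * Real.pi * Complex.I : ℂ) (Set.range b ∪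
          Set.range fun p : Fin (2 * g) × Fin (2 * g) => C p.1 p.2))) (C₀ i j)) := by
    rcases hl with ⟨s, b, κ, h1, h2, h3, h4⟩ | h1
    · exact Or.inl ⟨s, h1, b, κ, h2, h3, h4⟩
    · exact Or.inr h1
  obtain ⟨E, hE⟩ := h C H hHt hHd hC (fun X hX => sym_inf (hmon X (by rw [map_eq]; exact hX))) A₀ R₀ K₀ S₀ hspc
    N D r C₀ hN ((Matrix.isUnit_iff_isUnit_det _).1 hC₀) hl'
  refine ⟨E, fun t ht hpres K hK hKD S hS hSr hmem => ?_⟩
  have hS' := Pool.Agent.Y123.ST.subT_iff.1 hS
  have hHc : IsUnit (Pool.Agent.Y119.HY.cm H).det := Pool.Agent.H936.G.cm_unit hHd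
  have hL : ∀ i, ∀ X ∈ Pool.Agent.Helper880_LF.spS (Pool.Agent.Y119.HY.cm H)⁻¹,
      Pool.Agent.Helper880_R3.ib i X ∈ Pool.Agent.H936.SL.Lm S := by
    rw [Pool.Agent.H936.SL.cm_inv hHd]
    exact hE t ht.1 ht.2.1 ht.2.2 (fun j => by
      obtain ⟨A, hA⟩ := hpres j
      obtain ⟨R, hR⟩ := pres_of hA
      exact ⟨A, R, hR⟩) K hK hKD S hS' hSr hmem
  have hHct : (Pool.Agent.Y119.HY.cm H)ᵀ = -Pool.Agent.Y119.HY.cm H := by
    rw [← Pool.Agent.Y119.HY.cm_transpose, hHt, Pool.Agent.Y119.HY.cm_neg]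
  have hSpf : Pool.Agent.Y123.GN.Spf (Pool.Agent.Y119.HY.cm H) :=
    ⟨(Matrix.isUnit_iff_isUnit_det _).2 hHc, hHct⟩
  have hgrp : ∀ γ : Fin N → (Matrix (Fin (2 * g)) (Fin (2 * g)) ℂ)ˣ,
      (∀ j, γ j ∈ Pool.Agent.Y123.GN.GB (Pool.Agent.Y119.HY.cm H)) →
      ∀ x ∈ S, total 1 (fun j => (γ j : Matrix (Fin (2 * g)) (Fin (2 * g)) ℂ)) * x ∈ S := fun γ hγ x hx =>
    Pool.Agent.H936.SL.sp_stab hHct hHc hS' hL γ hγ hx
  refine ⟨fun γ hγ x hx => ?_, fun hr hC₀ Q w hST => ?_⟩
  · choose u hu hu' using fun j => Pool.Agent.Y123.GN.quot_GB (X := 1) (Y := γ j) (μ := 1)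
      (B := Pool.Agent.Y119.HY.cm H) (Q := Pool.Agent.Y119.HY.cm H) one_ne_zero isUnit_one
      (by rw [Matrix.one_mul, Matrix.transpose_one, Matrix.mul_one, one_smul])
      (by rw [one_smul, ← map_eq]; exact hγ j) (Or.inl hSpf)
    have h1 := hgrp u hu x hx
    have h2 : (fun j => (u j : Matrix (Fin (2 * g)) (Fin (2 * g)) ℂ)) = γ := by
      funext j
      have h3 := hu' j
      rwa [Matrix.mul_one] at h3
    rwa [h2] at h1
  · have hKalg : ∀ x ∈ K, IsAlgebraic ℚ x := by
      intro x hx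
      have : NumberField K := { to_charZero := inferInstance, to_finiteDimensional := hK }
      have h6 : IsAlgebraic ℚ (⟨x, hx⟩ : K) := Algebra.IsAlgebraic.isAlgebraic _
      exact h6.algebraMap (A := ℂ)
    have hFT : torsorOf r H Q w = Pool.Agent.Helper880_R3.FT r (Pool.Agent.Y119.HY.cm H) Q w (fun _ => 0) fun _ => 1 := by
      ext y
      constructor
      · rintro ⟨z, hz, X, hy, hX⟩
        refine ⟨z, hz, X, hy, fun j => ⟨?_, Or.inl hSpf⟩⟩
        rw [← map_eq]
        exact hX j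
      · rintro ⟨z, hz, X, hy, hX⟩
        refine ⟨z, hz, X, hy, fun j => ?_⟩
        rw [map_eq]
        exact (hX j).1
    rw [hC₀] at hmem
    rw [hFT] at hST ⊢
    exact Pool.Agent.Helper880_R3.absolute hKalg hr hS' hmem hgrp hST

end Pool.Agent.Results.MP_f11a48_ag.NearSpecialFibres
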